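import Pool.Agent.Q212.ZB4

/-!
# Cantor cubes are strongly zero-dimensional without choice

In every model of Zermelo set theory (so in every model of ZF): for every set `j` and every finite
set `b` (in particular every two element set), the set of all functions from `j` to `b` with the
product topology, where `b` is discrete, is strongly zero-dimensional.
-/

namespace Pool.Agent.Results.MP_fa4505_lc.CantorCubes

open FirstOrder FirstOrder.Language
open Pool.Agent.Helper672.Plain (LSet Zermelo)
open Pool.Agent.H310Cards
open Pool.Agent.H310Top (IsTopology)
open Pool.Agent.Q212.ZTop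

universe u

theorem result (M : Type u) [LSet.Structure M] [Zermelo M] (j b x t : M)
    (hb : IsTwo b ∨ IsFinite b) (hx : IsFunSet x j b) (ht : IsPowerTop t x j) :
    IsTopology t x ∧ IsStronglyZeroDim t x :=
  ⟨Pool.Agent.Q212.ZB.isTopology_power ht, Pool.Agent.Q212.ZB.result_aux
    (hb.elim (fun h => Pool.Agent.Q212.ZB.isFinite_two h) fun h => h) hx ht⟩

end Pool.Agent.Results.MP_fa4505_lc.CantorCubes
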